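import Pool.Agent.Helper9_CG.Stmt

/-!
# Squad CG, module KON: groups of arcs from Koenig's theorem
-/

set_option autoImplicit false

namespace Pool.Agent.CG.H26

open Pool.Agent.CG

theorem matching {V : Type} [Fintype V] (O : V → V → Prop) (k : ℕ) (hk : 1 ≤ k)
    (h : ∀ v, {w | O v w}.ncard = k ∧ {w | O w v}.ncard = k) :
    ∃ π : Equiv.Perm V, ∀ x, O x (π x) := by
  classical
  have h1 : ∀ v, (Finset.univ.filter (fun w => O v w)).card = k := by
    intro v
    rw [← (h v).1, Set.ncard_eq_toFinset_card']
    congr 1
    ext w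
    simp
  have h2 : ∀ v, (Finset.univ.filter (fun w => O w v)).card = k := by
    intro v
    rw [← (h v).2, Set.ncard_eq_toFinset_card']
    congr 1
    ext w
    simp
  obtain ⟨f, hf, hf'⟩ := (Finset.all_card_le_biUnion_card_iff_exists_injective
    (fun v => Finset.univ.filter (fun w => O v w))).1 (by
      intro s
      have := Finset.card_mul_le_card_mul (s := s)
        (t := s.biUnion fun v => Finset.univ.filter (fun w => O v w)) (m := k) (n := k) O (by
          intro a ha
          rw [← h1 a]
          apply Finset.card_le_card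
          intro w hw
          rw [Finset.mem_bipartiteAbove]
          exact ⟨Finset.mem_biUnion.2 ⟨a, ha, hw⟩, (Finset.mem_filter.1 hw).2⟩) (by
          intro b _
          rw [← h2 b]
          apply Finset.card_le_card
          intro w hw
          rw [Finset.mem_bipartiteBelow] at hw
          exact Finset.mem_filter.2 ⟨Finset.mem_univ _, hw.2⟩)
      exact Nat.le_of_mul_le_mul_right this hk)
  exact ⟨Equiv.ofBijective f (Finite.injective_iff_bijective.1 hf), fun x =>
    (Finset.mem_filter.1 (hf' x)).2⟩

theorem perms {V : Type} [Fintype V] (k : ℕ) : ∀ (O : V → V → Prop),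
    (∀ v, {w | O v w}.ncard = k ∧ {w | O w v}.ncard = k) →
    ∃ π : ℕ → Equiv.Perm V, (∀ i < k, ∀ x, O x (π i x)) ∧
      (∀ x y, O x y → ∃ i < k, π i x = y) ∧
      ∀ i < k, ∀ j < k, ∀ x, π i x = π j x → i = j := by
  classical
  induction k with
  | zero =>
    intro O h
    refine ⟨fun _ => 1, fun i hi => absurd hi (by omega), ?_, fun i hi => absurd hi (by omega)⟩
    intro x y hxy
    have := (h x).1
    rw [Set.ncard_eq_zero (Set.toFinite _)] at this
    have h2 : y ∈ {w | O x w} := hxy
    rw [this] at h2
    exact absurd h2 (Set.notMem_empty _)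
  | succ k ih =>
    intro O h
    obtain ⟨σ, hσ⟩ := matching O (k + 1) (by omega) h
    obtain ⟨π, hπ, hp, hq⟩ := ih (fun x y => O x y ∧ y ≠ σ x) (by
      intro v
      constructor
      · have e : {w | O v w ∧ w ≠ σ v} = {w | O v w} \ {σ v} := by
          ext w
          rfl
        rw [e, Set.ncard_sdiff_singleton_of_mem (show σ v ∈ {w | O v w} from hσ v), (h v).1]
        rfl
      · have e : {w | O w v ∧ v ≠ σ w} = {w | O w v} \ {σ.symm v} := by
          ext w
          constructor
          · rintro ⟨h1, h2⟩
            refine ⟨h1, ?_⟩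
            intro h3
            apply h2
            rw [Set.mem_singleton_iff.1 h3, Equiv.apply_symm_apply]
          · rintro ⟨h1, h2⟩
            refine ⟨h1, ?_⟩
            intro h3
            apply h2
            rw [Set.mem_singleton_iff, h3, Equiv.symm_apply_apply]
        rw [e, Set.ncard_sdiff_singleton_of_mem (show σ.symm v ∈ {w | O w v} by
          have := hσ (σ.symm v)
          rwa [Equiv.apply_symm_apply] at this), (h v).2]
        rfl)
    refine ⟨fun i => if i = k then σ else π i, ?_, ?_, ?_⟩
    · intro i hi x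
      dsimp only
      split_ifs with h1
      · exact hσ x
      · exact (hπ i (by omega) x).1
    · intro x y hxy
      by_cases h1 : y = σ x
      · exact ⟨k, by omega, by
          dsimp only
          rw [if_pos rfl, h1]⟩
      · obtain ⟨i, hi, e⟩ := hp x y ⟨hxy, h1⟩
        exact ⟨i, by omega, by
          dsimp only
          rw [if_neg (by omega), e]⟩
    · intro i hi j hj x e
      dsimp only at e
      split_ifs at e with h1 h2 h2
      · omega
      · exact absurd e.symm (hπ j (by omega) x).2
      · exact absurd e (hπ i (by omega) x).2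
      · exact hq i (by omega) j (by omega) x e

theorem kon : KonStmt := by
  classical
  intro V _ O k s d _ hreg hds
  obtain ⟨π, hπ, hp, hq⟩ := perms k O hreg
  have hs : 0 < s := Nat.pos_of_ne_zero (NeZero.ne s)
  -- the number of the permutation of an arc
  choose! p hpk hpe using hp
  have hpu : ∀ x i, i < k → p x (π i x) = i := by
    intro x i hi
    exact hq _ (hpk x _ (hπ i hi x)) _ hi x (hpe x _ (hπ i hi x))
  let grp' : V → V → (Fin (2 * d) × V) ⊕ (V × V) := fun x y =>
    if h : p x y / s < d then Sum.inl (⟨p x y / s, by omega⟩, x)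
    else if h : p x y / s < 2 * d then Sum.inl (⟨p x y / s, h⟩, y) else Sum.inr (x, y)
  let idx : V → V → Fin s := fun x y => ⟨p x y % s, Nat.mod_lt _ hs⟩
  have hidx : ∀ x y x' y', idx x y = idx x' y' → p x y / s = p x' y' / s → p x y = p x' y' := by
    intro x y x' y' h1 h2
    have h3 : p x y % s = p x' y' % s := congrArg Fin.val h1
    rw [← Nat.div_add_mod (p x y) s, ← Nat.div_add_mod (p x' y') s, h2, h3]
  -- the arc of a given number
  have hnum : ∀ (b : ℕ) (r : Fin s), b < 2 * d → b * s + r < k := by
    intro b r hb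
    have h1 : (b + 1) * s ≤ 2 * d * s := Nat.mul_le_mul_right s hb
    have h2 := r.2
    have h3 : (b + 1) * s = b * s + s := by ring
    omega
  have hdiv : ∀ (b : ℕ) (r : Fin s), (b * s + r) / s = b := by
    intro b r
    rw [Nat.mul_comm, Nat.mul_add_div hs, Nat.div_eq_of_lt r.2, add_zero]
  have hmod : ∀ (b : ℕ) (r : Fin s), (b * s + r) % s = r := by
    intro b r
    rw [Nat.mul_comm, Nat.mul_add_mod, Nat.mod_eq_of_lt r.2]
  refine ⟨(Fin (2 * d) × V) ⊕ (V × V), inferInstance, grp', idx, ?_, ?_, ?_, ?_⟩
  · intro x y x' y' hxy hxy' hg hi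
    simp only [grp'] at hg
    split_ifs at hg with h1 h2 h2 h2 h3 h3 h3 h3
    · simp only [Sum.inl.injEq, Prod.mk.injEq, Fin.mk.injEq] at hg
      have := hidx _ _ _ _ hi hg.1
      refine ⟨hg.2, ?_⟩
      rw [← hpe x y hxy, ← hpe x' y' hxy', this, hg.2]
    · simp only [Sum.inl.injEq, Prod.mk.injEq, Fin.mk.injEq] at hg
      omega
    · simp only [Sum.inl.injEq, Prod.mk.injEq, Fin.mk.injEq] at hg
      omega
    · simp only [Sum.inl.injEq, Prod.mk.injEq, Fin.mk.injEq] at hg
      have := hidx _ _ _ _ hi hg.1
      refine ⟨?_, hg.2⟩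
      have e1 := hpe x y hxy
      have e2 := hpe x' y' hxy'
      rw [this, hg.2] at e1
      exact (π (p x' y')).injective (by rw [e1]; exact e2.symm)
    · simp only [Sum.inr.injEq, Prod.mk.injEq] at hg
      exact hg
  · intro x y x' y' hxy hxy' hg
    simp only [grp'] at hg
    split_ifs at hg with h1 h2 h2 h2 h3 h3 h3 h3
    · simp only [Sum.inl.injEq, Prod.mk.injEq, Fin.mk.injEq] at hg
      exact Or.inl hg.2
    · simp only [Sum.inl.injEq, Prod.mk.injEq, Fin.mk.injEq] at hg
      omega
    · simp only [Sum.inl.injEq, Prod.mk.injEq, Fin.mk.injEq] at hg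
      omega
    · simp only [Sum.inl.injEq, Prod.mk.injEq, Fin.mk.injEq] at hg
      exact Or.inr hg.2
    · simp only [Sum.inr.injEq, Prod.mk.injEq] at hg
      exact Or.inl hg.1
  · intro τ t x
    let N : Fin d → ℕ := fun b => b * s + (t - τ (Sum.inl (⟨b, by omega⟩, x)) : Fin s)
    have hN : ∀ b, N b < k := fun b => hnum b _ (by omega)
    have hNd : ∀ b, N b / s = b := fun b => hdiv b _
    have hinj : Function.Injective fun b => π (N b) x := by
      intro b b' e
      have := hq _ (hN b) _ (hN b') x e
      apply Fin.ext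
      rw [← hNd b, ← hNd b', this]
    have hmem : Set.range (fun b => π (N b) x) ⊆ {y | O x y ∧ idx x y + τ (grp' x y) = t} := by
      rintro _ ⟨b, rfl⟩
      refine ⟨hπ _ (hN b) x, ?_⟩
      have e1 : p x (π (N b) x) = N b := hpu x _ (hN b)
      have e2 : grp' x (π (N b) x) = Sum.inl (⟨b, by omega⟩, x) := by
        simp only [grp', e1, hNd]
        rw [dif_pos b.2]
      have e3 : idx x (π (N b) x) = t - τ (Sum.inl (⟨b, by omega⟩, x)) := by
        apply Fin.ext
        simp only [idx, e1]
        exact hmod _ _
      dsimp only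
      rw [e2, e3, sub_add_cancel]
    calc d = (Set.range (fun b => π (N b) x)).ncard := by
          rw [← Set.image_univ, Set.ncard_image_of_injective _ hinj, Set.ncard_univ,
            Nat.card_eq_fintype_card, Fintype.card_fin]
      _ ≤ _ := Set.ncard_le_ncard hmem (Set.toFinite _)
  · intro τ t y
    let N : Fin d → ℕ := fun b => (b + d) * s +
      (t - τ (Sum.inl (⟨b + d, by omega⟩, y)) : Fin s)
    have hN : ∀ b, N b < k := fun b => hnum (b + d) _ (by omega)
    have hNd : ∀ b, N b / s = b + d := fun b => hdiv (b + d) _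
    have hO : ∀ b, O ((π (N b)).symm y) y := by
      intro b
      have := hπ _ (hN b) ((π (N b)).symm y)
      rwa [Equiv.apply_symm_apply] at this
    have hpn : ∀ b, p ((π (N b)).symm y) y = N b := by
      intro b
      have := hpu ((π (N b)).symm y) _ (hN b)
      rwa [Equiv.apply_symm_apply] at this
    have hinj : Function.Injective fun b => (π (N b)).symm y := by
      intro b b' e
      have e1 := hpn b
      have e2 := hpn b'
      dsimp only at e
      rw [e, e2] at e1
      apply Fin.ext
      have := hNd b
      rw [← e1, hNd b'] at this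
      omega
    have hmem : Set.range (fun b => (π (N b)).symm y) ⊆
        {x | O x y ∧ idx x y + τ (grp' x y) = t} := by
      rintro _ ⟨b, rfl⟩
      refine ⟨hO b, ?_⟩
      have e1 := hpn b
      have e2 : grp' ((π (N b)).symm y) y = Sum.inl (⟨b + d, by omega⟩, y) := by
        simp only [grp', e1, hNd]
        rw [dif_neg (by omega), dif_pos (by omega)]
      have e3 : idx ((π (N b)).symm y) y = t - τ (Sum.inl (⟨b + d, by omega⟩, y)) := by
        apply Fin.ext
        simp only [idx, e1]
        exact hmod _ _
      dsimp only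
      rw [e2, e3, sub_add_cancel]
    calc d = (Set.range (fun b => (π (N b)).symm y)).ncard := by
          rw [← Set.image_univ, Set.ncard_image_of_injective _ hinj, Set.ncard_univ,
            Nat.card_eq_fintype_card, Fintype.card_fin]
      _ ≤ _ := Set.ncard_le_ncard hmem (Set.toFinite _)

end Pool.Agent.CG.H26
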