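import Pool.Agent.Helper26_CG.Pev0

/-!
# Squad CG, module PEV: probability of a violator
-/

set_option autoImplicit false

namespace Pool.Agent.CG.H26

open SimpleGraph Pool.Agent.LAG Pool.Agent.LLG Pool.Agent.CG

section cover

variable {V : Type} (O : V → V → Prop) (A S : Set V)

theorem mem_inl (x : V) : (Sum.inl x : V ⊕ V) ∈ tl A S ↔ x ∈ A := by
  constructor
  · rintro (⟨a, ha, e⟩ | ⟨a, _, e⟩)
    · rw [← Sum.inl_injective e]
      exact ha
    · exact absurd e (by simp)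
  · intro h
    exact Or.inl ⟨x, h, rfl⟩

theorem mem_inr (y : V) : (Sum.inr y : V ⊕ V) ∈ tl A S ↔ y ∈ S := by
  constructor
  · rintro (⟨a, _, e⟩ | ⟨a, ha, e⟩)
    · exact absurd e (by simp)
    · rw [← Sum.inr_injective e]
      exact ha
  · intro h
    exact Or.inr ⟨y, h, rfl⟩

theorem adj_inl (x : V) (z : V ⊕ V) : (dbl O).Adj (Sum.inl x) z ↔ ∃ y, z = Sum.inr y ∧ O x y := by
  constructor
  · rintro (⟨x', y, e1, e2, h3⟩ | ⟨x', y, e1, e2, h3⟩)
    · rw [Sum.inl_injective e1]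
      exact ⟨y, e2, h3⟩
    · exact absurd e1 (by simp)
  · rintro ⟨y, e, h⟩
    exact Or.inl ⟨x, y, rfl, e, h⟩

theorem adj_inr (y : V) (z : V ⊕ V) : (dbl O).Adj (Sum.inr y) z ↔ ∃ x, z = Sum.inl x ∧ O x y := by
  constructor
  · rintro (⟨x', y', e1, e2, h3⟩ | ⟨x', y', e1, e2, h3⟩)
    · exact absurd e1 (by simp)
    · rw [Sum.inr_injective e1]
      exact ⟨x', e2, h3⟩
  · rintro ⟨x, e, h⟩
    exact Or.inr ⟨x, y, rfl, e, h⟩

theorem dg_inl (x : V) : dg (dbl O) (tl A S) (Sum.inl x) = {y | y ∈ S ∧ O x y}.ncard := by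
  unfold dg
  have : {y | y ∈ tl A S ∧ (dbl O).Adj (Sum.inl x) y} = Sum.inr '' {y | y ∈ S ∧ O x y} := by
    ext z
    constructor
    · rintro ⟨h1, h2⟩
      obtain ⟨y, rfl, h3⟩ := (adj_inl O x z).1 h2
      exact ⟨y, ⟨(mem_inr A S y).1 h1, h3⟩, rfl⟩
    · rintro ⟨y, ⟨h1, h2⟩, rfl⟩
      exact ⟨(mem_inr A S y).2 h1, (adj_inl O x _).2 ⟨y, rfl, h2⟩⟩
  rw [this, Set.ncard_image_of_injective _ Sum.inr_injective]

theorem dg_inr (y : V) : dg (dbl O) (tl A S) (Sum.inr y) = {x | x ∈ A ∧ O x y}.ncard := by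
  unfold dg
  have : {z | z ∈ tl A S ∧ (dbl O).Adj (Sum.inr y) z} = Sum.inl '' {x | x ∈ A ∧ O x y} := by
    ext z
    constructor
    · rintro ⟨h1, h2⟩
      obtain ⟨x, rfl, h3⟩ := (adj_inr O y z).1 h2
      exact ⟨x, ⟨(mem_inl A S x).1 h1, h3⟩, rfl⟩
    · rintro ⟨x, ⟨h1, h2⟩, rfl⟩
      exact ⟨(mem_inl A S x).2 h1, (adj_inr O y _).2 ⟨x, rfl, h2⟩⟩
  rw [this, Set.ncard_image_of_injective _ Sum.inl_injective]

theorem reg_dbl {k : ℕ} (h : ∀ v, {w | O v w}.ncard = k ∧ {w | O w v}.ncard = k) (z : V ⊕ V) :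
    ((dbl O).neighborSet z).ncard = k := by
  have e : ((dbl O).neighborSet z).ncard =
      dg (dbl O) (tl (Set.univ : Set V) (Set.univ : Set V)) z := by
    unfold dg
    congr 1
    ext y
    constructor
    · intro hy
      refine ⟨?_, hy⟩
      rcases y with y | y
      · exact (mem_inl _ _ y).2 (Set.mem_univ _)
      · exact (mem_inr _ _ y).2 (Set.mem_univ _)
    · intro hy
      exact hy.2
  rw [e]
  rcases z with x | y
  · rw [dg_inl, ← (h x).1]
    congr 1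
    ext y
    exact ⟨fun h => h.2, fun h => ⟨Set.mem_univ _, h⟩⟩
  · rw [dg_inr, ← (h y).2]
    congr 1
    ext y
    exact ⟨fun h => h.2, fun h => ⟨Set.mem_univ _, h⟩⟩

variable [Fintype V]

theorem cnt_row : eb O A S = ∑ x, open Classical in if x ∈ A then {y | y ∈ S ∧ O x y}.ncard
    else 0 := by
  classical
  unfold eb
  rw [nc_pairs fun a b => a ∈ A ∧ b ∈ S ∧ O a b]
  refine Finset.sum_congr rfl fun x _ => ?_
  split_ifs with h
  · congr 1
    ext y
    exact ⟨fun h => h.2, fun h' => ⟨h, h'⟩⟩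
  · rw [Set.ncard_eq_zero (Set.toFinite _)]
    ext y
    exact ⟨fun h' => absurd h'.1 h, fun h' => absurd h' (Set.notMem_empty _)⟩

theorem cnt_col : eb O A S = ∑ y, open Classical in if y ∈ S then {x | x ∈ A ∧ O x y}.ncard
    else 0 := by
  classical
  unfold eb
  rw [nc_pairs' fun a b => a ∈ A ∧ b ∈ S ∧ O a b]
  refine Finset.sum_congr rfl fun y _ => ?_
  split_ifs with h
  · congr 1
    ext x
    exact ⟨fun h' => ⟨h'.1, h'.2.2⟩, fun h' => ⟨h'.1, h, h'.2⟩⟩
  · rw [Set.ncard_eq_zero (Set.toFinite _)]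
    ext y
    exact ⟨fun h' => absurd h'.2.1 h, fun h' => absurd h' (Set.notMem_empty _)⟩

theorem bd_dbl : bd (dbl O) (tl A S) = eb O A Sᶜ + eb O Aᶜ S := by
  classical
  have h := bd_out (dbl O) (tl A S)
  rw [Fintype.sum_sum_type] at h
  simp only [mem_inl, mem_inr, dg_inl, dg_inr] at h
  have h1 : (eb O Aᶜ S : ℝ) = ∑ x, if x ∈ A then (0 : ℝ) else ({y | y ∈ S ∧ O x y}.ncard : ℝ) := by
    rw [cnt_row, Nat.cast_sum]
    refine Finset.sum_congr rfl fun x _ => ?_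
    by_cases hx : x ∈ A
    · rw [if_neg (fun h : x ∈ Aᶜ => h hx), if_pos hx, Nat.cast_zero]
    · rw [if_pos (show x ∈ Aᶜ from hx), if_neg hx]
  have h2 : (eb O A Sᶜ : ℝ) = ∑ y, if y ∈ S then (0 : ℝ) else ({x | x ∈ A ∧ O x y}.ncard : ℝ) := by
    rw [cnt_col, Nat.cast_sum]
    refine Finset.sum_congr rfl fun x _ => ?_
    by_cases hx : x ∈ S
    · rw [if_neg (fun h : x ∈ Sᶜ => h hx), if_pos hx, Nat.cast_zero]
    · rw [if_pos (show x ∈ Sᶜ from hx), if_neg hx]
  rw [← h1, ← h2] at h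
  have h3 : (bd (dbl O) (tl A S) : ℝ) = ((eb O A Sᶜ + eb O Aᶜ S : ℕ) : ℝ) := by
    rw [h]
    push_cast
    ring
  exact_mod_cast h3

theorem card_tl : (tl A S).ncard = A.ncard + S.ncard := by
  classical
  rw [show (tl A S).ncard = {z | z ∈ tl A S}.ncard from rfl, nc, Fintype.sum_sum_type]
  simp only [mem_inl, mem_inr]
  rw [show A.ncard = {z | z ∈ A}.ncard from rfl, show S.ncard = {z | z ∈ S}.ncard from rfl,
    nc, nc]

theorem split_col (y : V) : {x | x ∈ A ∧ O x y}.ncard + {x | x ∈ Aᶜ ∧ O x y}.ncard =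
    {x | O x y}.ncard := by
  classical
  rw [nc, nc, nc, ← Finset.sum_add_distrib]
  refine Finset.sum_congr rfl fun x _ => ?_
  by_cases h1 : x ∈ A <;> by_cases h2 : O x y <;> simp [h1, h2]

theorem split_row (x : V) : {y | y ∈ S ∧ O x y}.ncard + {y | y ∈ Sᶜ ∧ O x y}.ncard =
    {y | O x y}.ncard := by
  classical
  rw [nc, nc, nc, ← Finset.sum_add_distrib]
  refine Finset.sum_congr rfl fun y _ => ?_
  by_cases h1 : y ∈ S <;> by_cases h2 : O x y <;> simp [h1, h2]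

theorem card_S {k : ℕ} (h : ∀ v, {w | O v w}.ncard = k ∧ {w | O w v}.ncard = k) :
    k * S.ncard ≤ k * A.ncard + eb O Aᶜ S := by
  classical
  have h1 : k * S.ncard = eb O A S + eb O Aᶜ S := by
    rw [cnt_col, cnt_col, ← Finset.sum_add_distrib, show S.ncard = {z | z ∈ S}.ncard from rfl, nc,
      Finset.mul_sum]
    refine Finset.sum_congr rfl fun y _ => ?_
    split_ifs
    · rw [split_col, (h y).2, mul_one]
    · rw [mul_zero, add_zero]
  have h2 : eb O A S ≤ k * A.ncard := by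
    rw [cnt_row, show A.ncard = {z | z ∈ A}.ncard from rfl, nc, Finset.mul_sum]
    refine Finset.sum_le_sum fun x _ => ?_
    split_ifs
    · rw [mul_one, ← (h x).1]
      exact Set.ncard_le_ncard (fun y hy => hy.2) (Set.toFinite _)
    · exact Nat.zero_le _
  omega

end cover

section events

variable {V G : Type} [Fintype V] [Fintype G] {s : ℕ} [NeZero s]

theorem wit_bound (hwit : WitStmt) (k j : ℕ) (O : V → V → Prop) (grp : V → V → G)
    (idx : V → V → Fin s) (t : Fin s) (hg : GS O (6 * j) grp idx) (hj : 1 ≤ j)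
    (hks : 100 * k ≤ 1212 * j * s) (E : V → Set (V × V)) (u : V → ℝ) (h0 : ∀ z, 0 ≤ u z)
    (hE : ∀ z, ((E z).ncard : ℝ) = k * u z) (hEO : ∀ z, ∀ e ∈ E z, O e.1 e.2)
    (hdis : ∀ z z', z ≠ z' → Disjoint (E z) (E z')) :
    ({τ : G → Fin s | ∀ z, 37 * u z < 1 →
        j ≤ {e : V × V | e ∈ E z ∧ idx e.1 e.2 + τ (grp e.1 e.2) = t}.ncard}.ncard : ℝ) ≤
      (∏ z, (min 1 (37 * u z)) ^ j) * (Nat.card (G → Fin s) : ℝ) := by
  classical
  have h := hwit V G V s (6 * j) j O grp idx t (Finset.univ.filter fun z => 37 * u z < 1) E hg hj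
    hEO hdis
  have e : {τ : G → Fin s | ∀ z ∈ (Finset.univ.filter fun z => 37 * u z < 1),
        j ≤ {e : V × V | e ∈ E z ∧ idx e.1 e.2 + τ (grp e.1 e.2) = t}.ncard} =
      {τ : G → Fin s | ∀ z, 37 * u z < 1 →
        j ≤ {e : V × V | e ∈ E z ∧ idx e.1 e.2 + τ (grp e.1 e.2) = t}.ncard} := by
    ext τ
    constructor
    · intro h z hz
      exact h z (Finset.mem_filter.2 ⟨Finset.mem_univ _, hz⟩)
    · intro h z hz
      exact h z (Finset.mem_filter.1 hz).2
  rw [e] at h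
  refine h.trans (mul_le_mul_of_nonneg_right ?_ (Nat.cast_nonneg _))
  rw [Finset.prod_filter]
  have hs : 0 < s := Nat.pos_of_ne_zero (NeZero.ne s)
  have hjs : (0 : ℝ) < j * s := by
    have : 0 < j * s := Nat.mul_pos hj hs
    exact_mod_cast this
  refine Finset.prod_le_prod (fun z _ => ?_) fun z _ => ?_
  · have := h0 z
    split_ifs
    · positivity
    · exact zero_le_one
  · have hz0 := h0 z
    split_ifs with hz
    · apply pow_le_pow_left₀ (by positivity)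
      rw [min_eq_right hz.le, hE, div_le_iff₀ hjs]
      have h1 : 100 * (k : ℝ) ≤ 1212 * j * s := by exact_mod_cast hks
      nlinarith
    · rw [min_eq_left (not_lt.1 hz), one_pow]

theorem fst_count {X Y : Type} [Finite X] [Finite Y] (T : Set X) :
    ({ω : X × Y | ω.1 ∈ T}.ncard : ℝ) = T.ncard * (Nat.card Y : ℝ) := by
  have e : {ω : X × Y | ω.1 ∈ T} = T ×ˢ (Set.univ : Set Y) := by
    ext ω
    simp
  rw [e, Set.ncard_prod, Set.ncard_univ]
  push_cast
  rfl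

end events

theorem pev (hwit : WitStmt) (hvip : VipStmt) (hpsi : PsiStmt) : PevStmt := by
  classical
  intro V G Ξ _ _ _ s b k c j m Dd w q M _ D t A S hN hok hsid hne
  have hN' := hN
  obtain ⟨hj, hc1, hjs, hks, hs4, hm1, hsb, hk1, hw, hDk, hqk, hqb, _, hκ, hM1, hMm, hMw,
    hMl⟩ := hN
  set Γ := dbl D.O with hΓ
  set U := tl A S with hU
  have hreg := reg_dbl D.O hok.reg
  have hkpos : 1 ≤ k := le_trans (by norm_num) hk1
  have hk0 : (0 : ℝ) < k := by exact_mod_cast hkpos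
  have hj1 : 1 ≤ j := by omega
  have hb1 : 1 ≤ b := by omega
  have hb0 : (0 : ℝ) < b := by exact_mod_cast hb1
  have hu0 := uu_nonneg Γ U k hreg hkpos
  set a : ℝ := ((A ∩ D.al).ncard : ℝ) with ha
  set β : ℝ := (bd Γ U : ℝ) with hβ
  have hβ0 : 0 ≤ β := by rw [hβ]; positivity
  -- the bound for the number of the allowed vertices
  have ha' : 46 / 100 * (U.ncard : ℝ) - (1 / 2 + 3 * q) * β / k ≤ a := by
    have h1 := card_S D.O A S hok.reg
    have h2 := card_tl A S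
    have h3 := hsid.2 U
    have h4 : (A \ D.al).ncard ≤ {u | u ∈ U ∧ bas u ∉ D.al}.ncard := by
      rw [← Set.ncard_image_of_injective (A \ D.al) (Sum.inl_injective (β := V))]
      apply Set.ncard_le_ncard _ (Set.toFinite _)
      rintro _ ⟨x, ⟨hx, hx'⟩, rfl⟩
      exact ⟨(mem_inl A S x).2 hx, hx'⟩
    have h5 : (A ∩ D.al).ncard + (A \ D.al).ncard = A.ncard :=
      Set.ncard_inter_add_ncard_sdiff_eq_ncard A D.al (Set.toFinite _)
    have h6 : eb D.O Aᶜ S ≤ bd Γ U := by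
      rw [hΓ, hU, bd_dbl]
      omega
    have g1 : (k : ℝ) * S.ncard ≤ k * A.ncard + β := by
      have : k * S.ncard ≤ k * A.ncard + bd Γ U := by omega
      rw [hβ]
      exact_mod_cast this
    have g2 : (U.ncard : ℝ) = A.ncard + S.ncard := by exact_mod_cast h2
    set X : ℝ := ({u | u ∈ U ∧ bas u ∉ D.al}.ncard : ℝ) with hX
    have g3 : (k : ℝ) ^ 2 * X ≤ 4 * q * U.ncard + 3 * k * q * β := by
      rw [hX, hβ]
      exact_mod_cast h3
    have g4 : (A.ncard : ℝ) - X ≤ a := by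
      have : A.ncard ≤ (A ∩ D.al).ncard + {u | u ∈ U ∧ bas u ∉ D.al}.ncard := by omega
      have h7 : (A.ncard : ℝ) ≤ (A ∩ D.al).ncard + X := by
        rw [hX]
        exact_mod_cast this
      rw [ha]
      linarith
    have g5 : (S.ncard : ℝ) ≤ A.ncard + β / k := by
      have : (S.ncard : ℝ) = (k * S.ncard) / k := by field_simp
      rw [this, show (A.ncard : ℝ) + β / k = (k * A.ncard + β) / k by field_simp]
      exact div_le_div_of_nonneg_right g1 hk0.le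
    have g6 : 100 * (q : ℝ) ≤ (k : ℝ) ^ 2 := by exact_mod_cast hqk
    have g7 : X ≤ 4 / 100 * U.ncard + 3 * q * (β / k) := by
      have h8 : 4 * (q : ℝ) * U.ncard ≤ (k : ℝ) ^ 2 * (4 / 100 * U.ncard) := by
        have : (0 : ℝ) ≤ U.ncard := Nat.cast_nonneg _
        nlinarith
      have h9 : 3 * (k : ℝ) * q * β = (k : ℝ) ^ 2 * (3 * q * (β / k)) := by
        field_simp
      have h10 : (k : ℝ) ^ 2 * X ≤ (k : ℝ) ^ 2 * (4 / 100 * U.ncard + 3 * q * (β / k)) := by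
        rw [mul_add]
        linarith
      exact le_of_mul_le_mul_left h10 (by positivity)
    have g8 : (1 / 2 + 3 * q) * β / k = 1 / 2 * (β / k) + 3 * q * (β / k) := by ring
    rw [g8]
    linarith
  have han := analytic Γ U k s c j b m Dd w q M a hpsi hN' hreg hsid.1 hne ha'
  refine le_trans ?_ (mul_le_mul_of_nonneg_right han (Nat.cast_nonneg _))
  -- the three events
  set N : ℝ := (Nat.card (Om V G Ξ s b) : ℝ) with hNd
  have hN0 : 0 ≤ N := by rw [hNd]; positivity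
  set E : Set (Om V G Ξ s b) := {ω | D.Ev ω t k j A S} with hE
  have hfin : ∀ X : Set (Om V G Ξ s b), X.Finite := fun X => Set.toFinite X
  -- (V)
  have hV : (E.ncard : ℝ) ≤ Real.exp (-((j : ℝ) / 10 * β / k + 18 / 100 * a / b)) * N := by
    have h := hvip V G Ξ s b k j D t A S hj1 hok hjs hks hsb
    have e1 : (eb D.O A Sᶜ : ℝ) + eb D.O Aᶜ S = β := by
      rw [hβ, hΓ, hU, bd_dbl]
      push_cast
      rfl
    rw [e1] at h
    refine le_trans ?_ h
    rw [Nat.cast_le]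
    exact Set.ncard_le_ncard (fun ω hω => hω.2.2.2.2) (hfin _)
  -- tails
  have hT : (E.ncard : ℝ) ≤ (∏ x : V, (min 1 (37 * uu Γ k U (Sum.inl x))) ^ j) * N := by
    have hcard : ∀ x, (({e : V × V | e.1 = x ∧ D.O e.1 e.2 ∧ (e.1 ∈ A ↔ e.2 ∈ S)}.ncard : ℕ) : ℝ) =
        k * uu Γ k U (Sum.inl x) := by
      intro x
      have e1 : {e : V × V | e.1 = x ∧ D.O e.1 e.2 ∧ (e.1 ∈ A ↔ e.2 ∈ S)} =
          (fun y => (x, y)) '' {y | D.O x y ∧ (x ∈ A ↔ y ∈ S)} := by
        ext ⟨p, r⟩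
        constructor
        · rintro ⟨h1, h2, h3⟩
          dsimp only at h1 h2 h3
          subst h1
          exact ⟨r, ⟨h2, h3⟩, rfl⟩
        · rintro ⟨y, ⟨h2, h3⟩, e⟩
          simp only [Prod.mk.injEq] at e
          obtain ⟨rfl, rfl⟩ := e
          exact ⟨rfl, h2, h3⟩
      rw [e1, Set.ncard_image_of_injective _ (fun y y' h => (Prod.mk.inj h).2)]
      unfold uu
      by_cases hx : x ∈ A
      · rw [if_pos ((mem_inl A S x).2 hx), hΓ, hU, dg_inl]
        have e2 : {y | D.O x y ∧ (x ∈ A ↔ y ∈ S)} = {y | y ∈ S ∧ D.O x y} := by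
          ext y
          exact ⟨fun h => ⟨h.2.1 hx, h.1⟩, fun h => ⟨h.2, fun _ => h.1, fun _ => hx⟩⟩
        rw [e2]
        field_simp
      · rw [if_neg (fun h => hx ((mem_inl A S x).1 h)), hΓ, hU, dg_inl]
        have e2 : {y | D.O x y ∧ (x ∈ A ↔ y ∈ S)} = {y | y ∈ Sᶜ ∧ D.O x y} := by
          ext y
          exact ⟨fun h => ⟨fun hy => hx (h.2.2 hy), h.1⟩,
            fun h => ⟨h.2, fun h' => absurd h' hx, fun h' => absurd h' h.1⟩⟩
        have h3 := split_row D.O S x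
        rw [(hok.reg x).1] at h3
        have h4 : ({y | y ∈ S ∧ D.O x y}.ncard : ℝ) + ({y | y ∈ Sᶜ ∧ D.O x y}.ncard : ℝ) = k := by
          exact_mod_cast h3
        rw [e2, mul_sub, mul_one, mul_div_cancel₀ _ hk0.ne']
        linarith
    have h := wit_bound hwit k j D.O D.grp D.idx t hok.gs hj1 hks
      (fun x => {e : V × V | e.1 = x ∧ D.O e.1 e.2 ∧ (e.1 ∈ A ↔ e.2 ∈ S)})
      (fun x => uu Γ k U (Sum.inl x)) (fun x => hu0 _) hcard (fun z e he => he.2.1)
      (fun z z' hz => Set.disjoint_left.2 fun e he he' => hz (he.1.symm.trans he'.1))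
    set T : Set (G → Fin s) := {τ | ∀ z, 37 * uu Γ k U (Sum.inl z) < 1 →
      j ≤ {e : V × V | e ∈ {e : V × V | e.1 = z ∧ D.O e.1 e.2 ∧ (e.1 ∈ A ↔ e.2 ∈ S)} ∧
        D.idx e.1 e.2 + τ (D.grp e.1 e.2) = t}.ncard} with hTd
    have hsub : E ⊆ {ω : Om V G Ξ s b | ω.1 ∈ T} := by
      rintro ω ⟨h1, h2, _, _, _⟩ x hx
      have key : ∀ X : Set V, (∀ y ∈ X, (x ∈ A ↔ y ∈ S)) →
          {y | y ∈ X ∧ D.B ω t x y}.ncard ≤
          {e : V × V | e ∈ {e : V × V | e.1 = x ∧ D.O e.1 e.2 ∧ (e.1 ∈ A ↔ e.2 ∈ S)} ∧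
            D.idx e.1 e.2 + ω.1 (D.grp e.1 e.2) = t}.ncard := by
        intro X hX
        rw [← Set.ncard_image_of_injective {y | y ∈ X ∧ D.B ω t x y}
          (f := fun y => (x, y)) (fun y y' h => (Prod.mk.inj h).2)]
        apply Set.ncard_le_ncard _ (Set.toFinite _)
        rintro _ ⟨y, ⟨hy, hB⟩, rfl⟩
        exact ⟨⟨rfl, hB.1, hX y hy⟩, hB.2⟩
      by_cases hxA : x ∈ A
      · exact (h1 x hxA).trans (key S fun y hy => ⟨fun _ => hy, fun _ => hxA⟩)
      · have hrich : k < 2 * {y | y ∈ S ∧ D.O x y}.ncard := by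
          unfold uu at hx
          rw [if_neg (fun h => hxA ((mem_inl A S x).1 h)), hΓ, hU, dg_inl] at hx
          have h3 : (36 / 37 : ℝ) < ({y | y ∈ S ∧ D.O x y}.ncard : ℝ) / k := by linarith
          rw [lt_div_iff₀ hk0] at h3
          have h4 : (k : ℝ) < 2 * ({y | y ∈ S ∧ D.O x y}.ncard : ℝ) := by nlinarith
          exact_mod_cast h4
        exact (h2 x hxA hrich).trans (key Sᶜ fun y hy =>
          ⟨fun h => absurd h hxA, fun h => absurd h hy⟩)
    calc (E.ncard : ℝ) ≤ ({ω : Om V G Ξ s b | ω.1 ∈ T}.ncard : ℝ) := by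
          rw [Nat.cast_le]
          exact Set.ncard_le_ncard hsub (hfin _)
      _ = T.ncard * (Nat.card ((Ξ → Fin 3) × (V → Fin b)) : ℝ) := fst_count T
      _ ≤ ((∏ x : V, (min 1 (37 * uu Γ k U (Sum.inl x))) ^ j) * (Nat.card (G → Fin s) : ℝ)) *
          (Nat.card ((Ξ → Fin 3) × (V → Fin b)) : ℝ) :=
          mul_le_mul_of_nonneg_right h (Nat.cast_nonneg _)
      _ = _ := by
          rw [hNd, show Nat.card (Om V G Ξ s b) = Nat.card (G → Fin s) *
            Nat.card ((Ξ → Fin 3) × (V → Fin b)) from Nat.card_prod _ _, Nat.cast_mul, mul_assoc]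
  -- heads
  have hH : (E.ncard : ℝ) ≤ (∏ y : V, (min 1 (37 * uu Γ k U (Sum.inr y))) ^ j) * N := by
    have hcard : ∀ y, (({e : V × V | e.2 = y ∧ D.O e.1 e.2 ∧ (e.1 ∈ A ↔ e.2 ∈ S)}.ncard : ℕ) : ℝ) =
        k * uu Γ k U (Sum.inr y) := by
      intro y
      have e1 : {e : V × V | e.2 = y ∧ D.O e.1 e.2 ∧ (e.1 ∈ A ↔ e.2 ∈ S)} =
          (fun x => (x, y)) '' {x | D.O x y ∧ (x ∈ A ↔ y ∈ S)} := by
        ext ⟨p, r⟩
        constructor
        · rintro ⟨h1, h2, h3⟩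
          dsimp only at h1 h2 h3
          subst h1
          exact ⟨p, ⟨h2, h3⟩, rfl⟩
        · rintro ⟨x, ⟨h2, h3⟩, e⟩
          simp only [Prod.mk.injEq] at e
          obtain ⟨rfl, rfl⟩ := e
          exact ⟨rfl, h2, h3⟩
      rw [e1, Set.ncard_image_of_injective _ (fun y y' h => (Prod.mk.inj h).1)]
      unfold uu
      by_cases hy : y ∈ S
      · rw [if_pos ((mem_inr A S y).2 hy), hΓ, hU, dg_inr]
        have e2 : {x | D.O x y ∧ (x ∈ A ↔ y ∈ S)} = {x | x ∈ A ∧ D.O x y} := by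
          ext x
          exact ⟨fun h => ⟨h.2.2 hy, h.1⟩, fun h => ⟨h.2, fun _ => hy, fun _ => h.1⟩⟩
        rw [e2]
        field_simp
      · rw [if_neg (fun h => hy ((mem_inr A S y).1 h)), hΓ, hU, dg_inr]
        have e2 : {x | D.O x y ∧ (x ∈ A ↔ y ∈ S)} = {x | x ∈ Aᶜ ∧ D.O x y} := by
          ext x
          exact ⟨fun h => ⟨fun hx => hy (h.2.1 hx), h.1⟩,
            fun h => ⟨h.2, fun h' => absurd h' h.1, fun h' => absurd h' hy⟩⟩
        have h3 := split_col D.O A y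
        rw [(hok.reg y).2] at h3
        have h4 : ({x | x ∈ A ∧ D.O x y}.ncard : ℝ) + ({x | x ∈ Aᶜ ∧ D.O x y}.ncard : ℝ) = k := by
          exact_mod_cast h3
        rw [e2, mul_sub, mul_one, mul_div_cancel₀ _ hk0.ne']
        linarith
    have h := wit_bound hwit k j D.O D.grp D.idx t hok.gs hj1 hks
      (fun y => {e : V × V | e.2 = y ∧ D.O e.1 e.2 ∧ (e.1 ∈ A ↔ e.2 ∈ S)})
      (fun y => uu Γ k U (Sum.inr y)) (fun x => hu0 _) hcard (fun z e he => he.2.1)
      (fun z z' hz => Set.disjoint_left.2 fun e he he' => hz (he.1.symm.trans he'.1))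
    set T : Set (G → Fin s) := {τ | ∀ z, 37 * uu Γ k U (Sum.inr z) < 1 →
      j ≤ {e : V × V | e ∈ {e : V × V | e.2 = z ∧ D.O e.1 e.2 ∧ (e.1 ∈ A ↔ e.2 ∈ S)} ∧
        D.idx e.1 e.2 + τ (D.grp e.1 e.2) = t}.ncard} with hTd
    have hsub : E ⊆ {ω : Om V G Ξ s b | ω.1 ∈ T} := by
      rintro ω ⟨_, _, h1, h2, _⟩ y hy
      have key : ∀ X : Set V, (∀ x ∈ X, (x ∈ A ↔ y ∈ S)) →
          {x | x ∈ X ∧ D.B ω t x y}.ncard ≤
          {e : V × V | e ∈ {e : V × V | e.2 = y ∧ D.O e.1 e.2 ∧ (e.1 ∈ A ↔ e.2 ∈ S)} ∧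
            D.idx e.1 e.2 + ω.1 (D.grp e.1 e.2) = t}.ncard := by
        intro X hX
        rw [← Set.ncard_image_of_injective {x | x ∈ X ∧ D.B ω t x y}
          (f := fun x => (x, y)) (fun y y' h => (Prod.mk.inj h).1)]
        apply Set.ncard_le_ncard _ (Set.toFinite _)
        rintro _ ⟨x, ⟨hx, hB⟩, rfl⟩
        exact ⟨⟨rfl, hB.1, hX x hx⟩, hB.2⟩
      by_cases hyS : y ∈ S
      · exact (h1 y hyS).trans (key A fun x hx => ⟨fun _ => hyS, fun _ => hx⟩)
      · have hrich : k < 2 * {x | x ∈ A ∧ D.O x y}.ncard := by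
          unfold uu at hy
          rw [if_neg (fun h => hyS ((mem_inr A S y).1 h)), hΓ, hU, dg_inr] at hy
          have h3 : (36 / 37 : ℝ) < ({x | x ∈ A ∧ D.O x y}.ncard : ℝ) / k := by linarith
          rw [lt_div_iff₀ hk0] at h3
          have h4 : (k : ℝ) < 2 * ({x | x ∈ A ∧ D.O x y}.ncard : ℝ) := by nlinarith
          exact_mod_cast h4
        exact (h2 y hyS hrich).trans (key Aᶜ fun x hx =>
          ⟨fun h => absurd h hx, fun h => absurd h hyS⟩)
    calc (E.ncard : ℝ) ≤ ({ω : Om V G Ξ s b | ω.1 ∈ T}.ncard : ℝ) := by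
          rw [Nat.cast_le]
          exact Set.ncard_le_ncard hsub (hfin _)
      _ = T.ncard * (Nat.card ((Ξ → Fin 3) × (V → Fin b)) : ℝ) := fst_count T
      _ ≤ ((∏ x : V, (min 1 (37 * uu Γ k U (Sum.inr x))) ^ j) * (Nat.card (G → Fin s) : ℝ)) *
          (Nat.card ((Ξ → Fin 3) × (V → Fin b)) : ℝ) :=
          mul_le_mul_of_nonneg_right h (Nat.cast_nonneg _)
      _ = _ := by
          rw [hNd, show Nat.card (Om V G Ξ s b) = Nat.card (G → Fin s) *
            Nat.card ((Ξ → Fin 3) × (V → Fin b)) from Nat.card_prod _ _, Nat.cast_mul, mul_assoc]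
  -- fourth powers
  set pT : ℝ := ∏ x : V, (min 1 (37 * uu Γ k U (Sum.inl x))) ^ j with hpT
  set pH : ℝ := ∏ y : V, (min 1 (37 * uu Γ k U (Sum.inr y))) ^ j with hpH
  have hmin : ∀ z, 0 ≤ min 1 (37 * uu Γ k U z) := fun z =>
    le_min zero_le_one (mul_nonneg (by norm_num) (hu0 z))
  have hpT0 : 0 ≤ pT := Finset.prod_nonneg fun z _ => pow_nonneg (hmin _) _
  have hpH0 : 0 ≤ pH := Finset.prod_nonneg fun z _ => pow_nonneg (hmin _) _
  have he0 : (0 : ℝ) ≤ E.ncard := Nat.cast_nonneg _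
  have hQ0 : 0 ≤ Real.exp (-(50 * c * β / k + 9 / 100 * a / b)) *
      ∏ z, (min 1 (37 * uu Γ k U z)) ^ (250 * c) :=
    mul_nonneg (Real.exp_pos _).le (Finset.prod_nonneg fun z _ => pow_nonneg (hmin _) _)
  apply le_of_pow_le_pow_left₀ (n := 4) (by norm_num) (mul_nonneg hQ0 hN0)
  set pV : ℝ := Real.exp (-((j : ℝ) / 10 * β / k + 18 / 100 * a / b)) with hpV
  have hpV0 : 0 ≤ pV := (Real.exp_pos _).le
  calc (E.ncard : ℝ) ^ 4 = (E.ncard * E.ncard) * (E.ncard * E.ncard) := by ring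
    _ ≤ ((pV * N) * (pV * N)) * ((pT * N) * (pH * N)) := by
        apply mul_le_mul
        · exact mul_le_mul hV hV he0 (by positivity)
        · exact mul_le_mul hT hH he0 (by positivity)
        · positivity
        · positivity
    _ = (pV * pV * (pT * pH)) * N ^ 4 := by ring
    _ = _ := by
        rw [mul_pow]
        congr 1
        rw [mul_pow, ← Finset.prod_pow, hpT, hpH, ← Fintype.prod_sum_type
          (f := fun z => (min 1 (37 * uu Γ k U z)) ^ j), hpV, ← Real.exp_add, ← Real.exp_nat_mul]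
        congr 1
        · congr 1
          rw [hj]
          push_cast
          ring
        · refine Finset.prod_congr rfl fun z _ => ?_
          rw [← pow_mul, hj]
          congr 1
          ring

end Pool.Agent.CG.H26
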