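import Pool.Agent.Helper9_CG.Stmt

/-!
# Squad CG, module PEV: the analytic part
-/

set_option autoImplicit false

namespace Pool.Agent.CG.H26

open SimpleGraph Pool.Agent.LAG Pool.Agent.LLG Pool.Agent.CG

section count

theorem nc {α : Type} [Fintype α] (p : α → Prop) [DecidablePred p] :
    {x | p x}.ncard = ∑ x, if p x then 1 else 0 := by
  rw [Set.ncard_eq_toFinset_card', ← Finset.card_filter]
  congr 1
  ext x
  simp

theorem nc_pairs {α β : Type} [Fintype α] [Fintype β] (R : α → β → Prop) :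
    {e : α × β | R e.1 e.2}.ncard = ∑ a, {b | R a b}.ncard := by
  classical
  rw [nc, Fintype.sum_prod_type]
  refine Finset.sum_congr rfl fun a _ => ?_
  rw [nc]

theorem nc_pairs' {α β : Type} [Fintype α] [Fintype β] (R : α → β → Prop) :
    {e : α × β | R e.1 e.2}.ncard = ∑ b, {a | R a b}.ncard := by
  classical
  rw [nc, Fintype.sum_prod_type, Finset.sum_comm]
  refine Finset.sum_congr rfl fun a _ => ?_
  rw [nc]

variable {W : Type} [Fintype W] (Γ : SimpleGraph W) (U : Set W) (k : ℕ)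

theorem dg_add (hreg : ∀ v, (Γ.neighborSet v).ncard = k) (z : W) :
    dg Γ U z + {y | y ∉ U ∧ Γ.Adj z y}.ncard = k := by
  classical
  rw [← hreg z, dg, nc, nc]
  have e : (Γ.neighborSet z).ncard = {y | Γ.Adj z y}.ncard := rfl
  rw [e, nc, ← Finset.sum_add_distrib]
  refine Finset.sum_congr rfl fun y _ => ?_
  by_cases h1 : y ∈ U <;> by_cases h2 : Γ.Adj z y <;> simp [h1, h2]

theorem dg_le (hreg : ∀ v, (Γ.neighborSet v).ncard = k) (z : W) : dg Γ U z ≤ k := by
  have := dg_add Γ U k hreg z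
  omega

theorem bd_in (hreg : ∀ v, (Γ.neighborSet v).ncard = k) :
    (bd Γ U : ℝ) = ∑ z, open Classical in if z ∈ U then ((k : ℝ) - dg Γ U z) else 0 := by
  classical
  have h1 : bd Γ U = ∑ a, {b | a ∈ U ∧ b ∉ U ∧ Γ.Adj a b}.ncard :=
    nc_pairs fun a b => a ∈ U ∧ b ∉ U ∧ Γ.Adj a b
  rw [h1, Nat.cast_sum]
  refine Finset.sum_congr rfl fun z _ => ?_
  split_ifs with hz
  · have e : {b | z ∈ U ∧ b ∉ U ∧ Γ.Adj z b} = {b | b ∉ U ∧ Γ.Adj z b} := by
      ext b
      exact ⟨fun h => h.2, fun h => ⟨hz, h⟩⟩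
    rw [e]
    have := dg_add Γ U k hreg z
    have h2 : (dg Γ U z : ℝ) + ({y | y ∉ U ∧ Γ.Adj z y}.ncard : ℝ) = k := by exact_mod_cast this
    linarith
  · have e : {b | z ∈ U ∧ b ∉ U ∧ Γ.Adj z b} = ∅ := by
      ext b
      exact ⟨fun h => absurd h.1 hz, fun h => absurd h (Set.notMem_empty _)⟩
    rw [e, Set.ncard_empty, Nat.cast_zero]

theorem bd_out : (bd Γ U : ℝ) = ∑ z, open Classical in if z ∈ U then 0 else (dg Γ U z : ℝ) := by
  classical
  have h1 : bd Γ U = ∑ b, {a | a ∈ U ∧ b ∉ U ∧ Γ.Adj a b}.ncard :=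
    nc_pairs' fun a b => a ∈ U ∧ b ∉ U ∧ Γ.Adj a b
  rw [h1, Nat.cast_sum]
  refine Finset.sum_congr rfl fun z _ => ?_
  split_ifs with hz
  · have e : {a | a ∈ U ∧ z ∉ U ∧ Γ.Adj a z} = ∅ := by
      ext b
      exact ⟨fun h => absurd hz h.2.1, fun h => absurd h (Set.notMem_empty _)⟩
    rw [e, Set.ncard_empty, Nat.cast_zero]
  · have e : {a | a ∈ U ∧ z ∉ U ∧ Γ.Adj a z} = {y | y ∈ U ∧ Γ.Adj z y} := by
      ext b
      exact ⟨fun h => ⟨h.1, h.2.2.symm⟩, fun h => ⟨h.1, hz, h.2.symm⟩⟩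
    rw [e]
    rfl

theorem ins_sum : (ins Γ U : ℝ) = ∑ z, open Classical in if z ∈ U then (dg Γ U z : ℝ) else 0 := by
  classical
  have h1 : ins Γ U = ∑ a, {b | a ∈ U ∧ b ∈ U ∧ Γ.Adj a b}.ncard :=
    nc_pairs fun a b => a ∈ U ∧ b ∈ U ∧ Γ.Adj a b
  rw [h1, Nat.cast_sum]
  refine Finset.sum_congr rfl fun z _ => ?_
  split_ifs with hz
  · have e : {b | z ∈ U ∧ b ∈ U ∧ Γ.Adj z b} = {y | y ∈ U ∧ Γ.Adj z y} := by
      ext b
      exact ⟨fun h => h.2, fun h => ⟨hz, h⟩⟩
    rw [e]
    rfl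
  · have e : {b | z ∈ U ∧ b ∈ U ∧ Γ.Adj z b} = ∅ := by
      ext b
      exact ⟨fun h => absurd h.1 hz, fun h => absurd h (Set.notMem_empty _)⟩
    rw [e, Set.ncard_empty, Nat.cast_zero]

theorem card_sum : (U.ncard : ℝ) = ∑ z, open Classical in if z ∈ U then (1 : ℝ) else 0 := by
  classical
  have h1 : U.ncard = ∑ z, if z ∈ U then 1 else 0 := nc fun z => z ∈ U
  rw [h1, Nat.cast_sum]
  refine Finset.sum_congr rfl fun z _ => ?_
  split_ifs <;> simp

theorem bd_add_ins (hreg : ∀ v, (Γ.neighborSet v).ncard = k) :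
    (bd Γ U : ℝ) + ins Γ U = k * U.ncard := by
  classical
  rw [bd_in Γ U k hreg, ins_sum, card_sum, Finset.mul_sum, ← Finset.sum_add_distrib]
  refine Finset.sum_congr rfl fun z _ => ?_
  split_ifs <;> ring

theorem uu_nonneg (hreg : ∀ v, (Γ.neighborSet v).ncard = k) (hk : 1 ≤ k) (z : W) :
    0 ≤ uu Γ k U z := by
  classical
  have h1 : (dg Γ U z : ℝ) ≤ k := by exact_mod_cast dg_le Γ U k hreg z
  have hk' : (0 : ℝ) < k := by exact_mod_cast hk
  unfold uu
  split_ifs
  · positivity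
  · rw [sub_nonneg, div_le_one hk']
    exact h1

theorem uu_le_one (hreg : ∀ v, (Γ.neighborSet v).ncard = k) (hk : 1 ≤ k) (z : W) :
    uu Γ k U z ≤ 1 := by
  classical
  have h1 : (dg Γ U z : ℝ) ≤ k := by exact_mod_cast dg_le Γ U k hreg z
  have hk' : (0 : ℝ) < k := by exact_mod_cast hk
  have h2 : (0 : ℝ) ≤ (dg Γ U z : ℝ) / k := by positivity
  unfold uu
  split_ifs
  · rw [div_le_one hk']
    exact h1
  · linarith

theorem sum_uu (hreg : ∀ v, (Γ.neighborSet v).ncard = k) (hk : 1 ≤ k) :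
    ∑ z, (1 - uu Γ k U z) = 2 * (bd Γ U : ℝ) / k := by
  classical
  have hk' : (k : ℝ) ≠ 0 := by
    have : (0 : ℝ) < k := by exact_mod_cast hk
    exact this.ne'
  have h1 := bd_in Γ U k hreg
  have h2 := bd_out Γ U
  have h3 : 2 * (bd Γ U : ℝ) = ∑ z, (if z ∈ U then ((k : ℝ) - dg Γ U z) else (dg Γ U z : ℝ)) := by
    rw [two_mul]
    nth_rewrite 1 [h1]
    rw [h2, ← Finset.sum_add_distrib]
    refine Finset.sum_congr rfl fun z _ => ?_
    split_ifs <;> ring
  rw [h3, Finset.sum_div]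
  refine Finset.sum_congr rfl fun z _ => ?_
  unfold uu
  split_ifs
  · rw [sub_div, div_self hk']
  · ring

end count

section analytic

theorem analytic {W : Type} [Fintype W] (Γ : SimpleGraph W) (U : Set W)
    (k s c j b m Dd w q : ℕ) (M a : ℝ) (hpsi : PsiStmt) (hN : NumP k s c j b m Dd w q M)
    (hreg : ∀ v, (Γ.neighborSet v).ncard = k) (hsp : SpD Γ Dd m) (hne : U.Nonempty)
    (ha : 46 / 100 * (U.ncard : ℝ) - (1 / 2 + 3 * q) * (bd Γ U : ℝ) / k ≤ a) :
    Real.exp (-(50 * c * (bd Γ U : ℝ) / k + 9 / 100 * a / b)) *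
      ∏ z, (min 1 (37 * uu Γ k U z)) ^ (250 * c) ≤
    Real.exp (-M) * Wt Γ k c w (kap k c m Dd w) U * Real.exp (-((U.ncard : ℝ) / (50 * b))) := by
  classical
  obtain ⟨_, hc1, hjs, _, hs4, hm1, hsb, hk1, hw, hDk, _, hqb, _, hκ, hM1, hMm, hMw, hMl⟩ := hN
  set κ := kap k c m Dd w with hκd
  set β : ℝ := (bd Γ U : ℝ) with hβ
  set n : ℝ := (U.ncard : ℝ) with hn
  set L := Real.log k with hL
  have hkpos : 1 ≤ k := le_trans (by norm_num) hk1
  have hk0 : (0 : ℝ) < k := by exact_mod_cast hkpos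
  have hb1 : 1 ≤ b := by omega
  have hb0 : (0 : ℝ) < b := by exact_mod_cast hb1
  have hb1' : (1 : ℝ) ≤ b := by exact_mod_cast hb1
  have hc0 : (1 : ℝ) ≤ c := by exact_mod_cast hc1
  have hβ0 : 0 ≤ β := by rw [hβ]; positivity
  have hn0 : 0 ≤ n := by rw [hn]; positivity
  have hL1 : 0 ≤ L := Real.log_nonneg (by exact_mod_cast hkpos)
  have hqb' : (q : ℝ) ≤ b := by exact_mod_cast hqb
  have hk_exp : Real.exp L = k := Real.exp_log hk0
  -- the set of poor vertices
  set P : Set W := {z | z ∈ U ∧ dg Γ U z < w} with hP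
  have hvp : vp Γ w U = P.ncard := rfl
  have hu0 := uu_nonneg Γ U k hreg hkpos
  have hu1 := uu_le_one Γ U k hreg hkpos
  -- the factor at a vertex
  have hfac : ∀ z, Real.exp (-(25 * c * (1 - uu Γ k U z))) *
      (min 1 (37 * uu Γ k U z)) ^ (250 * c) ≤
      uu Γ k U z ^ c * Real.exp (-(1 + 9 * c) * (1 - uu Γ k U z)) *
        Real.exp (-(if z ∈ P then 61 * c * L else 0)) := by
    intro z
    have h := hpsi c k (uu Γ k U z) hc1 (hu0 z) (hu1 z)
    have e1 : Real.exp (-(1 + 9 * c) * (1 - uu Γ k U z)) =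
        Real.exp (-(1 - uu Γ k U z)) * Real.exp (-(9 * c * (1 - uu Γ k U z))) := by
      rw [← Real.exp_add]
      congr 1
      ring
    rw [e1, ← mul_assoc]
    by_cases hz : z ∈ P
    · rw [if_pos hz]
      have h2 := h.2 hk1 (by
        have hz2 : dg Γ U z ≤ Nat.sqrt k := by
          have := hz.2
          omega
        have hz3 : dg Γ U z * dg Γ U z ≤ k :=
          le_trans (Nat.mul_le_mul hz2 hz2) (Nat.sqrt_le k)
        have hz4 : (dg Γ U z : ℝ) * dg Γ U z ≤ k := by exact_mod_cast hz3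
        unfold uu
        rw [if_pos hz.1, div_pow, div_mul_eq_mul_div, div_le_one (by positivity)]
        nlinarith)
      have e2 : Real.exp (-(61 * c * L)) = ((k : ℝ) ^ (61 * c))⁻¹ := by
        rw [Real.exp_neg, ← hk_exp, ← Real.exp_nat_mul]
        congr 2
        push_cast
        ring
      rw [e2]
      exact h2
    · rw [if_neg hz, neg_zero, Real.exp_zero, mul_one]
      exact h.1
  -- the product
  have hprod : Real.exp (-(50 * c * β / k)) * ∏ z, (min 1 (37 * uu Γ k U z)) ^ (250 * c) ≤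
      (∏ z, uu Γ k U z ^ c) * Real.exp (-((1 + 9 * c) * (2 * β / k))) *
        Real.exp (-(61 * c * L * P.ncard)) := by
    have e1 : Real.exp (-(50 * c * β / k)) = ∏ z, Real.exp (-(25 * c * (1 - uu Γ k U z))) := by
      rw [← Real.exp_sum, Finset.sum_neg_distrib, ← Finset.mul_sum, sum_uu Γ U k hreg hkpos]
      congr 2
      ring
    have e2 : Real.exp (-((1 + 9 * c) * (2 * β / k))) =
        ∏ z, Real.exp (-(1 + 9 * c) * (1 - uu Γ k U z)) := by
      rw [← Real.exp_sum, ← Finset.mul_sum, sum_uu Γ U k hreg hkpos]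
      congr 1
      ring
    have e3 : Real.exp (-(61 * c * L * P.ncard)) =
        ∏ z, Real.exp (-(if z ∈ P then 61 * c * L else 0)) := by
      rw [← Real.exp_sum, Finset.sum_neg_distrib, card_sum, Finset.mul_sum]
      congr 2
      refine Finset.sum_congr rfl fun z _ => ?_
      split_ifs <;> ring
    rw [e1, e2, e3, ← Finset.prod_mul_distrib, ← Finset.prod_mul_distrib,
      ← Finset.prod_mul_distrib]
    exact Finset.prod_le_prod (fun z _ => by
      have := hu0 z
      positivity) (fun z _ => hfac z)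
  -- the exponents
  have hκ' : κ * n * L ≤ n / (1000 * b) := by
    rw [le_div_iff₀ (by positivity)]
    calc κ * n * L * (1000 * b) = n * (1000 * b * L * κ) := by ring
      _ ≤ n * 1 := mul_le_mul_of_nonneg_left hκ hn0
      _ = n := mul_one n
  have ha' : 414 / 10000 * (n / b) - 315 / 1000 * (β / k) ≤ 9 / 100 * a / b := by
    have hx : 0 ≤ β / k := by positivity
    have h1 : (46 / 100 * n - (1 / 2 + 3 * q) * (β / k)) / b ≤ a / b := by
      apply div_le_div_of_nonneg_right _ hb0.le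
      rw [← mul_div_assoc]
      exact ha
    have h2 : (1 / 2 + 3 * q) * (β / k) / b ≤ 7 / 2 * (β / k) := by
      rw [div_le_iff₀ hb0]
      nlinarith
    rw [sub_div] at h1
    have h3 : 46 / 100 * n / b = 46 / 100 * (n / b) := by ring
    rw [h3] at h1
    have h4 : 9 / 100 * a / b = 9 / 100 * (a / b) := by ring
    rw [h4]
    linarith
  have hmain : M + (1 * L) * P.ncard + 21 / 1000 * (n / b) ≤
      414 / 10000 * (n / b) + (18 * c - 315 / 1000) * (β / k) + 61 * c * L * P.ncard := by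
    have hvp0 : (0 : ℝ) ≤ L * P.ncard := by positivity
    have hbk0 : 0 ≤ β / k := by positivity
    have hnb0 : 0 ≤ n / b := by positivity
    have hx : L * P.ncard ≤ 61 * c * L * P.ncard := by
      have h5 : 61 * c * L * P.ncard = 61 * c * (L * P.ncard) := by ring
      rw [h5]
      nlinarith
    have hy : 0 ≤ (18 * c - 315 / 1000) * (β / k) :=
      mul_nonneg (by linarith) hbk0
    rw [one_mul]
    by_cases hUm : m ≤ U.ncard
    · have h1 : 100 * M * b ≤ n := hMm.trans (by
        rw [hn]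
        exact_mod_cast hUm)
      have h2 : 100 * M ≤ n / b := by
        rw [le_div_iff₀ hb0]
        exact h1
      linarith
    · push Not at hUm
      have h3 : ins Γ U ≤ Dd * U.ncard := hsp U hUm
      have h4 : (ins Γ U : ℝ) ≤ Dd * n := by
        rw [hn]
        exact_mod_cast h3
      have h5 : β + ins Γ U = k * n := bd_add_ins Γ U k hreg
      have h6 : 2 * (Dd : ℝ) ≤ k := by exact_mod_cast hDk
      have h7 : n / 2 ≤ β / k := by
        rw [div_le_div_iff₀ (by norm_num) hk0]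
        nlinarith
      by_cases hUw : w ≤ U.ncard
      · have h8 : (w : ℝ) ≤ n := by
          rw [hn]
          exact_mod_cast hUw
        have h9 : (18 * c - 315 / 1000) * (n / 2) ≤ (18 * c - 315 / 1000) * (β / k) :=
          mul_le_mul_of_nonneg_left h7 (by linarith)
        have h10 : (8 : ℝ) * c * w ≤ 8 * c * n :=
          mul_le_mul_of_nonneg_left h8 (by positivity)
        have h11 : 8 * (c : ℝ) * n ≤ (18 * c - 315 / 1000) * (n / 2) := by nlinarith
        linarith
      · push Not at hUw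
        have hPU : P = U := by
          ext z
          refine ⟨fun h => h.1, fun h => ⟨h, lt_of_le_of_lt ?_ hUw⟩⟩
          exact Set.ncard_le_ncard (fun y hy => hy.1) (Set.toFinite _)
        have h8 : (1 : ℝ) ≤ P.ncard := by
          rw [hPU]
          have := (Set.ncard_pos (Set.toFinite U)).2 hne
          exact_mod_cast this
        have h9 : 60 * c * L ≤ 60 * c * L * P.ncard := by
          have h0 : 0 ≤ 60 * (c : ℝ) * L := by positivity
          nlinarith
        have h10 : L * P.ncard ≤ c * L * P.ncard := by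
          have : c * L * P.ncard = c * (L * P.ncard) := by ring
          rw [this]
          nlinarith
        have h11 : 61 * c * L * P.ncard = 60 * c * L * P.ncard + c * L * P.ncard := by ring
        rw [h11]
        linarith
  -- assembly
  have hWt : Wt Γ k c w κ U = (∏ z, uu Γ k U z ^ c) *
      Real.exp (-(2 * β / k + L * (P.ncard + κ * n))) := rfl
  have e0 : Real.exp (-(50 * c * β / k + 9 / 100 * a / b)) =
      Real.exp (-(9 / 100 * a / b)) * Real.exp (-(50 * c * β / k)) := by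
    rw [← Real.exp_add]
    congr 1
    ring
  have hpp : 0 ≤ ∏ z, uu Γ k U z ^ c := Finset.prod_nonneg fun z _ => pow_nonneg (hu0 z) _
  calc Real.exp (-(50 * c * β / k + 9 / 100 * a / b)) *
        ∏ z, (min 1 (37 * uu Γ k U z)) ^ (250 * c)
      = Real.exp (-(9 / 100 * a / b)) * (Real.exp (-(50 * c * β / k)) *
        ∏ z, (min 1 (37 * uu Γ k U z)) ^ (250 * c)) := by rw [e0, mul_assoc]
    _ ≤ Real.exp (-(9 / 100 * a / b)) * ((∏ z, uu Γ k U z ^ c) *
        Real.exp (-((1 + 9 * c) * (2 * β / k))) * Real.exp (-(61 * c * L * P.ncard))) :=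
        mul_le_mul_of_nonneg_left hprod (Real.exp_pos _).le
    _ = (∏ z, uu Γ k U z ^ c) * Real.exp (-(9 / 100 * a / b) -
        ((1 + 9 * c) * (2 * β / k)) - (61 * c * L * P.ncard)) := by
        rw [sub_eq_add_neg, sub_eq_add_neg, Real.exp_add, Real.exp_add]
        ring
    _ ≤ (∏ z, uu Γ k U z ^ c) * Real.exp (-M - (2 * β / k + L * (P.ncard + κ * n)) -
        n / (50 * b)) := by
        apply mul_le_mul_of_nonneg_left _ hpp
        apply Real.exp_le_exp.2
        have e4 : n / (50 * b) = 20 / 1000 * (n / b) := by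
          field_simp
          ring
        have e5 : n / (1000 * b) = 1 / 1000 * (n / b) := by
          field_simp
        rw [e5] at hκ'
        rw [e4]
        have e6 : (1 + 9 * c) * (2 * β / k) = 2 * β / k + 18 * c * (β / k) := by ring
        rw [e6]
        have e7 : L * (P.ncard + κ * n) = L * P.ncard + κ * n * L := by ring
        rw [e7]
        linarith
    _ = _ := by
        rw [hWt, sub_eq_add_neg, sub_eq_add_neg, Real.exp_add, Real.exp_add]
        ring

end analytic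

end Pool.Agent.CG.H26
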